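import Mathlib
import Pool.Agent.Lib.MP_08beec_co.UbMain

/-!
Real flow roots of bridgeless graphs are bounded above by an absolute constant.
-/

namespace Pool.Agent.Results.MP_08beec_co.FiniteBound

open Finset Polynomial

/-- A multigraph with vertex set `Fin n` and edge set `Fin m` is given with an orientation: the
edge `e` goes from `src e` to `tgt e` (loops and multiple edges are allowed).  A nowhere-zero
`ZMod k`-flow: no edge carries `0`, and at every vertex the sum over incoming edges equals the sum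
over outgoing edges. -/
def IsNowhereZeroFlow {n m : ℕ} (src tgt : Fin m → Fin n) (k : ℕ) (f : Fin m → ZMod k) : Prop :=
  (∀ e, f e ≠ 0) ∧
    ∀ v, ∑ e ∈ univ.filter (fun e => tgt e = v), f e = ∑ e ∈ univ.filter (fun e => src e = v), f e

/-- `P` is the flow polynomial: for every positive integer `k`, `P(k)` is the number of
nowhere-zero `ZMod k`-flows. -/
def IsFlowPolynomial {n m : ℕ} (src tgt : Fin m → Fin n) (P : ℤ[X]) : Prop :=
  ∀ k : ℕ, 0 < k →
    P.eval (k : ℤ) = (Nat.card {f : Fin m → ZMod k // IsNowhereZeroFlow src tgt k f} : ℤ)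

/-- `e` is a bridge: its two ends are not joined by a walk that avoids `e`. -/
def IsBridge {n m : ℕ} (src tgt : Fin m → Fin n) (e : Fin m) : Prop :=
  ¬ Relation.ReflTransGen
    (fun u w => ∃ e', e' ≠ e ∧ ((src e' = u ∧ tgt e' = w) ∨ (src e' = w ∧ tgt e' = u)))
    (src e) (tgt e)

open Pool.Agent.Lib.MP_08beec_co

theorem result : ∃ d : ℝ, ∀ (n m : ℕ) (src tgt : Fin m → Fin n), (∀ e, ¬ IsBridge src tgt e) →
    ∃ P : ℤ[X], IsFlowPolynomial src tgt P ∧ ∀ q : ℝ, d < q → 0 < aeval q P := by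
  obtain ⟨d, hd⟩ := Ub.flow_pos
  refine ⟨d, fun n m src tgt hb => ⟨flowPoly src tgt, isFlowPolynomial_flowPoly src tgt,
    fun q hq => hd q hq.le _ _ ⟨src, tgt⟩ _ (isFlowPolynomial_flowPoly src tgt) fun Z hZ => ?_⟩⟩
  obtain ⟨e, he⟩ := card_eq_one.mp hZ
  have h1 : ∀ e', ((src e' ∈ Z ∧ tgt e' ∉ Z) ∨ (src e' ∉ Z ∧ tgt e' ∈ Z)) ↔ e' = e := fun e' => by
    rw [← mem_singleton (a := e), ← he, Ub.Gr.mem_btw, mem_compl, mem_compl]
  have key : ∀ v, Relation.ReflTransGen
      (fun u w => ∃ e', e' ≠ e ∧ ((src e' = u ∧ tgt e' = w) ∨ (src e' = w ∧ tgt e' = u)))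
      (src e) v → (src e ∈ Z ↔ v ∈ Z) := by
    intro v hv
    induction hv with
    | refl => rfl
    | tail _ h ih =>
      obtain ⟨e', hne, h⟩ := h
      have := (h1 e').not.mpr hne
      rcases h with ⟨rfl, rfl⟩ | ⟨rfl, rfl⟩ <;> tauto
  have h2 := key _ (not_not.mp (hb e))
  have h3 := (h1 e).mpr rfl
  tauto

end Pool.Agent.Results.MP_08beec_co.FiniteBound
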