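import Mathlib
import Pool.Agent.Lib.MP_08beec_co.WickRec

/-!
For every real `x` with `6 < x < 4 + 2 √2` some bridgeless cubic multigraph has a flow polynomial
that is negative at `x`, and so has a real flow root larger than `x`.
-/

namespace Pool.Agent.Results.MP_08beec_co.LowerBound

open Finset Polynomial

/-- A multigraph with vertex set `Fin n` and edge set `Fin m` is given with an orientation: the
edge `e` goes from `src e` to `tgt e` (loops and multiple edges are allowed).  A nowhere-zero
`ZMod k`-flow: no edge carries `0`, and at every vertex the sum over incoming edges equals the sum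
over outgoing edges. -/
def IsNowhereZeroFlow {n m : ℕ} (src tgt : Fin m → Fin n) (k : ℕ) (f : Fin m → ZMod k) : Prop :=
  (∀ e, f e ≠ 0) ∧
    ∀ v, ∑ e ∈ univ.filter (fun e => tgt e = v), f e = ∑ e ∈ univ.filter (fun e => src e = v), f e

/-- `P` is the flow polynomial: for every positive integer `k`, `P(k)` is the number of
nowhere-zero `ZMod k`-flows. -/
def IsFlowPolynomial {n m : ℕ} (src tgt : Fin m → Fin n) (P : ℤ[X]) : Prop :=
  ∀ k : ℕ, 0 < k →
    P.eval (k : ℤ) = (Nat.card {f : Fin m → ZMod k // IsNowhereZeroFlow src tgt k f} : ℤ)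

/-- `e` is a bridge: its two ends are not joined by a walk that avoids `e`. -/
def IsBridge {n m : ℕ} (src tgt : Fin m → Fin n) (e : Fin m) : Prop :=
  ¬ Relation.ReflTransGen
    (fun u w => ∃ e', e' ≠ e ∧ ((src e' = u ∧ tgt e' = w) ∨ (src e' = w ∧ tgt e' = u)))
    (src e) (tgt e)

/-- Every vertex has degree three (a loop counts twice). -/
def IsCubic {n m : ℕ} (src tgt : Fin m → Fin n) : Prop :=
  ∀ v, (univ.filter (fun e => src e = v)).card + (univ.filter (fun e => tgt e = v)).card = 3

open Pool.Agent.Lib.MP_08beec_co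

lemma pairs_ends {V : Type} [DecidableEq V] : ∀ (m : ℕ) (s : Multiset V), s.card = 2 * m →
    ∀ E ∈ pairs m s, ((E.map Prod.fst : List V) : Multiset V) + (E.map Prod.snd : List V) = s
  | 0, s, hs, E, h => by
    simp only [pairs, Multiset.mem_singleton] at h
    obtain rfl : s = 0 := by simpa using hs
    simp [h]
  | m + 1, s, hs, E, h => by
    unfold pairs at h
    split_ifs at h with h0
    · simp at h
    · simp only [Multiset.mem_bind, Multiset.mem_map] at h
      obtain ⟨b, hb, E', hE', rfl⟩ := h
      have ha := (Multiset.exists_mem_of_ne_zero h0).choose_spec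
      have ih := pairs_ends m _ (by
        rw [Multiset.card_erase_of_mem hb, Multiset.card_erase_of_mem ha, hs]; rfl) E' hE'
      simp only [List.map_cons, ← Multiset.cons_coe, Multiset.cons_add, Multiset.add_cons]
      rw [ih, Multiset.cons_swap, Multiset.cons_erase hb, Multiset.cons_erase ha]

lemma card_filter_get {V W : Type} [DecidableEq W] (E : List V) (g : V → W) (v : W) :
    (univ.filter (fun e : Fin E.length => g (E.get e) = v)).card = (E.map g).count v := by
  induction E with
  | nil => simp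
  | cons x t ih =>
    rw [card_filter] at ih ⊢
    simp only [List.length_cons]
    rw [Fin.sum_univ_succ, List.map_cons, List.count_cons, ← ih, add_comm]
    by_cases h : g x = v <;> simp [h]

lemma exists_neg {x : ℝ} (h6 : 6 < x) (hx : x < 4 + 2 * Real.sqrt 2) :
    ∃ (n m : ℕ) (E : List (Fin n × Fin n)), E.length = m ∧
      IsCubic (fun e => (E.get e).1) (fun e => (E.get e).2) ∧ aeval x (F m E) < 0 := by
  obtain ⟨n, m, hc, hneg⟩ := hh_exists_neg h6 hx
  obtain ⟨n, rfl⟩ : ∃ k, n = k + 1 := by
    cases n with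
    | zero => rw [hh] at hneg; norm_num at hneg
    | succ k => exact ⟨k, rfl⟩
  rw [hh] at hneg
  have hB : (Finset.univ.erase (0 : Fin (n + 1))).card = n := by simp
  have h1 := sum_F m (0 : Fin (n + 1)) 3 (Finset.univ.erase 0) (Finset.notMem_erase _ _)
    (by rw [hB]; omega)
  have h2 := hh_map (aeval x : ℤ[X] →ₐ[ℤ] ℝ).toRingHom X n 3
  rw [hB] at h1
  rw [← h1, map_multiset_sum, Multiset.map_map] at h2
  simp only [AlgHom.toRingHom_eq_coe, RingHom.coe_coe, aeval_X] at h2
  by_contra hcon
  rw [← h2] at hneg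
  refine absurd hneg (not_lt.mpr (Multiset.sum_nonneg fun y hy => ?_))
  obtain ⟨E, hE, rfl⟩ := Multiset.mem_map.mp hy
  by_contra h
  refine hcon ⟨n + 1, m, E, pairs_length m _ E hE, fun v => ?_, not_le.mp h⟩
  have e := pairs_ends m _ (by rw [hs_card, hB]; omega) E hE
  rw [card_filter_get E Prod.fst v, card_filter_get E Prod.snd v, ← Multiset.coe_count,
    ← Multiset.coe_count, ← Multiset.count_add, e, hs, Multiset.count_add, Multiset.count_nsmul,
    Multiset.count_replicate]
  by_cases hv : v = 0
  · subst hv; simp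
  · rw [if_neg (Ne.symm hv), Multiset.count_eq_one_of_mem (Finset.nodup _)
      (Finset.mem_erase.mpr ⟨hv, Finset.mem_univ v⟩)]

lemma isFlowPolynomial {n m : ℕ} (ε : Fin m → Fin n × Fin n) :
    IsFlowPolynomial (fun e => (ε e).1) (fun e => (ε e).2) (F m (List.ofFn ε)) := by
  classical
  intro k hk
  have : NeZero k := ⟨hk.ne'⟩
  have h := F_eval (Γ := ZMod k) m (List.ofFn ε) (by simp)
  rw [ZMod.card] at h
  rw [h, N_ofFn, Nat.card_eq_fintype_card, Fintype.card_subtype, card_filter]
  push_cast
  refine sum_congr rfl fun f _ => ?_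
  congr 1
  refine propext (and_congr Iff.rfl ?_)
  rw [funext_iff]
  refine forall_congr' fun v => ?_
  simp only [Finset.sum_apply, Pi.sub_apply, Pi.single_apply, Pi.zero_apply, sum_sub_distrib,
    sum_filter, sub_eq_zero]
  simp only [eq_comm (a := v)]
  exact eq_comm

lemma no_flow_of_bridge {n m : ℕ} {src tgt : Fin m → Fin n} {e : Fin m}
    (he : IsBridge src tgt e) (k : ℕ) (f : Fin m → ZMod k) : ¬ IsNowhereZeroFlow src tgt k f := by
  classical
  rintro ⟨h0, h⟩
  set R : Fin n → Prop := fun v => Relation.ReflTransGen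
    (fun u w => ∃ e', e' ≠ e ∧ ((src e' = u ∧ tgt e' = w) ∨ (src e' = w ∧ tgt e' = u)))
    (src e) v with hR
  have key : ∀ g : Fin m → Fin n, ∑ v ∈ univ.filter R, ∑ e' ∈ univ.filter (fun e' => g e' = v), f e'
      = ∑ e', if R (g e') then f e' else 0 := by
    intro g
    simp only [sum_filter]
    rw [sum_congr rfl (g := fun v => ∑ e', if g e' = v then (if R (g e') then f e' else 0) else 0)]
    · rw [sum_comm]
      simp
    · intro v _
      split_ifs with hv
      · refine sum_congr rfl fun e' _ => ?_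
        split_ifs with h1 h2
        · rfl
        · exact absurd (h1 ▸ hv) h2
        · rfl
      · refine (sum_eq_zero fun e' _ => ?_).symm
        split_ifs with h1 h2
        · exact absurd (h1 ▸ h2) hv
        · rfl
        · rfl
  have h1 : ∑ e', (if R (tgt e') then f e' else 0) = ∑ e', if R (src e') then f e' else 0 := by
    rw [← key, ← key]
    exact sum_congr rfl fun v _ => h v
  rw [← add_sum_erase _ _ (mem_univ e), ← add_sum_erase _ _ (mem_univ e), if_neg he,
    if_pos Relation.ReflTransGen.refl] at h1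
  have h2 : ∑ e' ∈ univ.erase e, (if R (tgt e') then f e' else 0) =
      ∑ e' ∈ univ.erase e, if R (src e') then f e' else 0 := by
    refine sum_congr rfl fun e' he' => if_congr ?_ rfl rfl
    have hne : e' ≠ e := (mem_erase.mp he').1
    exact ⟨fun hr => hr.tail ⟨e', hne, Or.inr ⟨rfl, rfl⟩⟩,
      fun hr => hr.tail ⟨e', hne, Or.inl ⟨rfl, rfl⟩⟩⟩
  rw [h2] at h1
  exact h0 e (add_right_cancel h1).symm

theorem result (x : ℝ) (h6 : 6 < x) (hx : x < 4 + 2 * Real.sqrt 2) :
    ∃ (n m : ℕ) (src tgt : Fin m → Fin n) (P : ℤ[X]),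
      IsCubic src tgt ∧ (∀ e, ¬ IsBridge src tgt e) ∧ IsFlowPolynomial src tgt P ∧
        aeval x P < 0 ∧ ∃ q : ℝ, x < q ∧ q ≤ 7 ∧ aeval q P = 0 := by
  obtain ⟨n, m, E, rfl, hcub, hneg⟩ := exists_neg h6 hx
  have hP := isFlowPolynomial E.get
  rw [List.ofFn_get] at hP
  refine ⟨n, E.length, _, _, _, hcub, fun e he => ?_, hP, hneg, ?_⟩
  · have : F E.length E = 0 := by
      apply Polynomial.eq_of_infinite_eval_eq
      refine Set.infinite_of_injective_forall_mem (f := fun j : ℕ => ((j + 1 : ℕ) : ℤ))
        (fun i j h => by simpa using h) fun j => ?_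
      have : IsEmpty {f : Fin E.length → ZMod (j + 1) //
          IsNowhereZeroFlow (fun e => (E.get e).1) (fun e => (E.get e).2) (j + 1) f} :=
        ⟨fun f => no_flow_of_bridge he _ f.1 f.2⟩
      have := hP (j + 1) (Nat.succ_pos j)
      rw [Nat.card_of_isEmpty] at this
      simpa using this
    rw [this] at hneg
    simp at hneg
  · have h7 : (0 : ℝ) ≤ aeval (7 : ℝ) (F E.length E) := by
      have h := hP 7 (by norm_num)
      have e := aeval_algebraMap_apply_eq_algebraMap_eval (A := ℝ) ((7 : ℕ) : ℤ) (F E.length E)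
      rw [h] at e
      simp only [Nat.cast_ofNat, eq_intCast, Int.cast_ofNat, Int.cast_natCast] at e
      rw [e]
      positivity
    have hc : ContinuousOn (fun x : ℝ => aeval x (F E.length E)) (Set.Icc x 7) :=
      (Polynomial.continuous_aeval _).continuousOn
    have s2 : Real.sqrt 2 * Real.sqrt 2 = 2 := Real.mul_self_sqrt (by norm_num)
    have s0 : 0 ≤ Real.sqrt 2 := Real.sqrt_nonneg 2
    have s3 : Real.sqrt 2 < 3 / 2 := by nlinarith
    obtain ⟨q, hq, hq0⟩ := intermediate_value_Ioc (by linarith) hc ⟨hneg, h7⟩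
    exact ⟨q, hq.1, hq.2, hq0⟩

end Pool.Agent.Results.MP_08beec_co.LowerBound
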